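import Pool.Agent.Q306.SG.Diag

/-!
# A Borel set with finitely colourable shift-graph sections whose complement has no Borel
uniformization

The definitions used in the statement are in `Pool/Agent/Q306/SG/Basic.lean`:
* `InfSets` : the space `[ℕ]^ℕ` of infinite subsets of `ℕ` (characteristic functions, as a subspace
  of `ℕ → Bool`), with the subspace topology and σ-algebra;
* `shift y` : the set `y` without its least element;
* `shiftGraph` : the shift graph, `y` and `z` adjacent iff `y ≠ z` and (`z = shift y` or
  `y = shift z`);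
* `BorelColorable A k` : there is a Borel map `c : A → Fin k` with `c y ≠ c z` whenever `y` and `z`
  in `A` are adjacent.
-/

open Pool.Agent.Q306.SG

/-- There is an open (so Borel) set `B ⊆ ℕ^ℕ × [ℕ]^ℕ` all of whose sections `B_x` induce a subgraph
of the shift graph with a Borel `4`-colouring, while no Borel function `f : ℕ^ℕ → [ℕ]^ℕ` satisfies
`f x ∉ B_x` for all `x`. -/
theorem Pool.Agent.Results.MP_bd9785_lc.NoUniformization.result :
    ∃ B : Set ((ℕ → ℕ) × InfSets), IsOpen B ∧ MeasurableSet B ∧
      (∀ x : ℕ → ℕ, BorelColorable {y | (x, y) ∈ B} 4) ∧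
      ¬ ∃ f : (ℕ → ℕ) → InfSets, Measurable f ∧ ∀ x, (x, f x) ∉ B := by
  refine ⟨(PII ∪ PI)ᶜ, (isClosed_PII.union isClosed_PI).isOpen_compl,
    (isClosed_PII.union isClosed_PI).isOpen_compl.measurableSet, colorable_section, ?_⟩
  rintro ⟨f, hf, h⟩
  exact no_uniformization f hf fun x => not_not.1 (h x)
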